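import Mathlib
import Pool.Agent.Lib.helper11.Mahler

set_option autoImplicit false

namespace Pool.Agent.H.MP_918176_nt

open PowerSeries Finset Pool.Agent.Lib.helper11.Mahler

noncomputable def r : ℤ⟦X⟧ := (1 + X) * geo ℤ 1

lemma g1 : geo ℤ 1 * (1 - X) = 1 := by simpa using geo_mul (R := ℤ) 1 one_ne_zero

lemma g2 : geo ℤ 2 * (1 - X ^ 2) = 1 := geo_mul (R := ℤ) 2 two_ne_zero

lemma g12 : geo ℤ 1 = (1 + X) * geo ℤ 2 := by
  linear_combination (-geo ℤ 1) * g2 + (1 + X) * geo ℤ 2 * g1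

lemma expand_r : expand 2 two_ne_zero r = (1 + X ^ 2) * geo ℤ 2 := by
  simp [r, expand_geo]

lemma U_X : U 2 (X : ℤ⟦X⟧) = 0 := by
  ext n
  rw [coeff_U, coeff_X, if_neg (by omega), map_zero]

lemma U_int (c : ℤ) (f : ℤ⟦X⟧) : U 2 ((c : ℤ⟦X⟧) * f) = c * U 2 f := by
  rw [← zsmul_eq_mul, ← zsmul_eq_mul, map_zsmul]

lemma u0 : U 2 (r ^ 0) = 1 := by rw [pow_zero, U_one 2 two_ne_zero]

lemma u1 : U 2 (r ^ 1) = r := by
  have h : r ^ 1 = 1 * expand 2 two_ne_zero r + X * expand 2 two_ne_zero (2 * geo ℤ 1) := by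
    rw [expand_r, map_mul, expand_geo, map_ofNat, r, g12]
    ring
  rw [h, map_add, U_mul_expand, U_mul_expand, U_X, U_one 2 two_ne_zero, one_mul, zero_mul, add_zero]

lemma rec_r (f : ℤ⟦X⟧) : U 2 (f * r ^ 2) = 2 * r * U 2 (f * r) - U 2 f := by
  have h : r ^ 2 + 1 = r * expand 2 two_ne_zero (2 * r) := by
    rw [map_mul, expand_r, map_ofNat, r, g12]
    linear_combination (-1 - geo ℤ 2 * (1 - X ^ 2)) * g2
  rw [eq_sub_iff_add_eq, ← map_add, mul_comm (2 * r), ← U_mul_expand 2 two_ne_zero, mul_assoc, ← h,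
    mul_add, mul_one]

lemma urec (k : ℕ) : U 2 (r ^ (k + 2)) = 2 * r * U 2 (r ^ (k + 1)) - U 2 (r ^ k) := by
  rw [pow_add, rec_r, pow_succ]

lemma u2 : U 2 (r ^ 2) = (-1) * r ^ 0 + (2) * r ^ 2 := by
  rw [urec 0, u1, u0]
  ring

lemma u3 : U 2 (r ^ 3) = (-3) * r ^ 1 + (4) * r ^ 3 := by
  rw [urec 1, u2, u1]
  ring

lemma u4 : U 2 (r ^ 4) = (1) * r ^ 0 + (-8) * r ^ 2 + (8) * r ^ 4 := by
  rw [urec 2, u3, u2]
  ring

lemma u5 : U 2 (r ^ 5) = (5) * r ^ 1 + (-20) * r ^ 3 + (16) * r ^ 5 := by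
  rw [urec 3, u4, u3]
  ring

lemma u6 : U 2 (r ^ 6) = (-1) * r ^ 0 + (18) * r ^ 2 + (-48) * r ^ 4 + (32) * r ^ 6 := by
  rw [urec 4, u5, u4]
  ring

lemma u7 : U 2 (r ^ 7) = (-7) * r ^ 1 + (56) * r ^ 3 + (-112) * r ^ 5 + (64) * r ^ 7 := by
  rw [urec 5, u6, u5]
  ring

lemma u8 : U 2 (r ^ 8) = (1) * r ^ 0 + (-32) * r ^ 2 + (160) * r ^ 4 + (-256) * r ^ 6 + (128) * r ^ 8 := by
  rw [urec 6, u7, u6]
  ring

lemma u9 : U 2 (r ^ 9) = (9) * r ^ 1 + (-120) * r ^ 3 + (432) * r ^ 5 + (-576) * r ^ 7 + (256) * r ^ 9 := by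
  rw [urec 7, u8, u7]
  ring

lemma u10 : U 2 (r ^ 10) = (-1) * r ^ 0 + (50) * r ^ 2 + (-400) * r ^ 4 + (1120) * r ^ 6 + (-1280) * r ^ 8 + (512) * r ^ 10 := by
  rw [urec 8, u9, u8]
  ring

lemma u11 : U 2 (r ^ 11) = (-11) * r ^ 1 + (220) * r ^ 3 + (-1232) * r ^ 5 + (2816) * r ^ 7 + (-2816) * r ^ 9 + (1024) * r ^ 11 := by
  rw [urec 9, u10, u9]
  ring

lemma u12 : U 2 (r ^ 12) = (1) * r ^ 0 + (-72) * r ^ 2 + (840) * r ^ 4 + (-3584) * r ^ 6 + (6912) * r ^ 8 + (-6144) * r ^ 10 + (2048) * r ^ 12 := by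
  rw [urec 10, u11, u10]
  ring

lemma u13 : U 2 (r ^ 13) = (13) * r ^ 1 + (-364) * r ^ 3 + (2912) * r ^ 5 + (-9984) * r ^ 7 + (16640) * r ^ 9 + (-13312) * r ^ 11 + (4096) * r ^ 13 := by
  rw [urec 11, u12, u11]
  ring

lemma u14 : U 2 (r ^ 14) = (-1) * r ^ 0 + (98) * r ^ 2 + (-1568) * r ^ 4 + (9408) * r ^ 6 + (-26880) * r ^ 8 + (39424) * r ^ 10 + (-28672) * r ^ 12 + (8192) * r ^ 14 := by
  rw [urec 12, u13, u12]
  ring

lemma u15 : U 2 (r ^ 15) = (-15) * r ^ 1 + (560) * r ^ 3 + (-6048) * r ^ 5 + (28800) * r ^ 7 + (-70400) * r ^ 9 + (92160) * r ^ 11 + (-61440) * r ^ 13 + (16384) * r ^ 15 := by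
  rw [urec 13, u14, u13]
  ring

lemma u16 : U 2 (r ^ 16) = (1) * r ^ 0 + (-128) * r ^ 2 + (2688) * r ^ 4 + (-21504) * r ^ 6 + (84480) * r ^ 8 + (-180224) * r ^ 10 + (212992) * r ^ 12 + (-131072) * r ^ 14 + (32768) * r ^ 16 := by
  rw [urec 14, u15, u14]
  ring

lemma u17 : U 2 (r ^ 17) = (17) * r ^ 1 + (-816) * r ^ 3 + (11424) * r ^ 5 + (-71808) * r ^ 7 + (239360) * r ^ 9 + (-452608) * r ^ 11 + (487424) * r ^ 13 + (-278528) * r ^ 15 + (65536) * r ^ 17 := by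
  rw [urec 15, u16, u15]
  ring

lemma u18 : U 2 (r ^ 18) = (-1) * r ^ 0 + (162) * r ^ 2 + (-4320) * r ^ 4 + (44352) * r ^ 6 + (-228096) * r ^ 8 + (658944) * r ^ 10 + (-1118208) * r ^ 12 + (1105920) * r ^ 14 + (-589824) * r ^ 16 + (131072) * r ^ 18 := by
  rw [urec 16, u17, u16]
  ring

lemma u19 : U 2 (r ^ 19) = (-19) * r ^ 1 + (1140) * r ^ 3 + (-20064) * r ^ 5 + (160512) * r ^ 7 + (-695552) * r ^ 9 + (1770496) * r ^ 11 + (-2723840) * r ^ 13 + (2490368) * r ^ 15 + (-1245184) * r ^ 17 + (262144) * r ^ 19 := by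
  rw [urec 17, u18, u17]
  ring

lemma u20 : U 2 (r ^ 20) = (1) * r ^ 0 + (-200) * r ^ 2 + (6600) * r ^ 4 + (-84480) * r ^ 6 + (549120) * r ^ 8 + (-2050048) * r ^ 10 + (4659200) * r ^ 12 + (-6553600) * r ^ 14 + (5570560) * r ^ 16 + (-2621440) * r ^ 18 + (524288) * r ^ 20 := by
  rw [urec 18, u19, u18]
  ring

lemma u21 : U 2 (r ^ 21) = (21) * r ^ 1 + (-1540) * r ^ 3 + (33264) * r ^ 5 + (-329472) * r ^ 7 + (1793792) * r ^ 9 + (-5870592) * r ^ 11 + (12042240) * r ^ 13 + (-15597568) * r ^ 15 + (12386304) * r ^ 17 + (-5505024) * r ^ 19 + (1048576) * r ^ 21 := by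
  rw [urec 19, u20, u19]
  ring

lemma u22 : U 2 (r ^ 22) = (-1) * r ^ 0 + (242) * r ^ 2 + (-9680) * r ^ 4 + (151008) * r ^ 6 + (-1208064) * r ^ 8 + (5637632) * r ^ 10 + (-16400384) * r ^ 12 + (30638080) * r ^ 14 + (-36765696) * r ^ 16 + (27394048) * r ^ 18 + (-11534336) * r ^ 20 + (2097152) * r ^ 22 := by
  rw [urec 20, u21, u20]
  ring

lemma u23 : U 2 (r ^ 23) = (-23) * r ^ 1 + (2024) * r ^ 3 + (-52624) * r ^ 5 + (631488) * r ^ 7 + (-4209920) * r ^ 9 + (17145856) * r ^ 11 + (-44843008) * r ^ 13 + (76873728) * r ^ 15 + (-85917696) * r ^ 17 + (60293120) * r ^ 19 + (-24117248) * r ^ 21 + (4194304) * r ^ 23 := by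
  rw [urec 21, u22, u21]
  ring

lemma u24 : U 2 (r ^ 24) = (1) * r ^ 0 + (-288) * r ^ 2 + (13728) * r ^ 4 + (-256256) * r ^ 6 + (2471040) * r ^ 8 + (-14057472) * r ^ 10 + (50692096) * r ^ 12 + (-120324096) * r ^ 14 + (190513152) * r ^ 16 + (-199229440) * r ^ 18 + (132120576) * r ^ 20 + (-50331648) * r ^ 22 + (8388608) * r ^ 24 := by
  rw [urec 22, u23, u22]
  ring

lemma u25 : U 2 (r ^ 25) = (25) * r ^ 1 + (-2600) * r ^ 3 + (80080) * r ^ 5 + (-1144000) * r ^ 7 + (9152000) * r ^ 9 + (-45260800) * r ^ 11 + (146227200) * r ^ 13 + (-317521920) * r ^ 15 + (466944000) * r ^ 17 + (-458752000) * r ^ 19 + (288358400) * r ^ 21 + (-104857600) * r ^ 23 + (16777216) * r ^ 25 := by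
  rw [urec 23, u24, u23]
  ring

lemma u26 : U 2 (r ^ 26) = (-1) * r ^ 0 + (338) * r ^ 2 + (-18928) * r ^ 4 + (416416) * r ^ 6 + (-4759040) * r ^ 8 + (32361472) * r ^ 10 + (-141213696) * r ^ 12 + (412778496) * r ^ 14 + (-825556992) * r ^ 16 + (1133117440) * r ^ 18 + (-1049624576) * r ^ 20 + (627048448) * r ^ 22 + (-218103808) * r ^ 24 + (33554432) * r ^ 26 := by
  rw [urec 24, u25, u24]
  ring

lemma u27 : U 2 (r ^ 27) = (-27) * r ^ 1 + (3276) * r ^ 3 + (-117936) * r ^ 5 + (1976832) * r ^ 7 + (-18670080) * r ^ 9 + (109983744) * r ^ 11 + (-428654592) * r ^ 13 + (1143078912) * r ^ 15 + (-2118057984) * r ^ 17 + (2724986880) * r ^ 19 + (-2387607552) * r ^ 21 + (1358954496) * r ^ 23 + (-452984832) * r ^ 25 + (67108864) * r ^ 27 := by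
  rw [urec 25, u26, u25]
  ring

lemma u28 : U 2 (r ^ 28) = (1) * r ^ 0 + (-392) * r ^ 2 + (25480) * r ^ 4 + (-652288) * r ^ 6 + (8712704) * r ^ 8 + (-69701632) * r ^ 10 + (361181184) * r ^ 12 + (-1270087680) * r ^ 14 + (3111714816) * r ^ 16 + (-5369233408) * r ^ 18 + (6499598336) * r ^ 20 + (-5402263552) * r ^ 22 + (2936012800) * r ^ 24 + (-939524096) * r ^ 26 + (134217728) * r ^ 28 := by
  rw [urec 26, u27, u26]
  ring

lemma u29 : U 2 (r ^ 29) = (29) * r ^ 1 + (-4060) * r ^ 3 + (168896) * r ^ 5 + (-3281408) * r ^ 7 + (36095488) * r ^ 9 + (-249387008) * r ^ 11 + (1151016960) * r ^ 13 + (-3683254272) * r ^ 15 + (8341487616) * r ^ 17 + (-13463453696) * r ^ 19 + (15386804224) * r ^ 21 + (-12163481600) * r ^ 23 + (6325010432) * r ^ 25 + (-1946157056) * r ^ 27 + (268435456) * r ^ 29 := by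
  rw [urec 27, u28, u27]
  ring

lemma u30 : U 2 (r ^ 30) = (-1) * r ^ 0 + (450) * r ^ 2 + (-33600) * r ^ 4 + (990080) * r ^ 6 + (-15275520) * r ^ 8 + (141892608) * r ^ 10 + (-859955200) * r ^ 12 + (3572121600) * r ^ 14 + (-10478223360) * r ^ 16 + (22052208640) * r ^ 18 + (-33426505728) * r ^ 20 + (36175872000) * r ^ 22 + (-27262976000) * r ^ 24 + (13589544960) * r ^ 26 + (-4026531840) * r ^ 28 + (536870912) * r ^ 30 := by
  rw [urec 28, u29, u28]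
  ring

noncomputable def h : Polynomial ℤ := (8619) * Polynomial.X ^ 0 + (-2839956) * Polynomial.X ^ 2 + (158035344) * Polynomial.X ^ 4 + (-3516980016) * Polynomial.X ^ 6 + (41369873664) * Polynomial.X ^ 8 + (-294706696704) * Polynomial.X ^ 10 + (1372936897536) * Polynomial.X ^ 12 + (-4376905104384) * Polynomial.X ^ 14 + (9793323073536) * Polynomial.X ^ 16 + (-15533171277824) * Polynomial.X ^ 18 + (17384492498944) * Polynomial.X ^ 20 + (-13428416577536) * Polynomial.X ^ 22 + (6813965615104) * Polynomial.X ^ 24 + (-2044404432896) * Polynomial.X ^ 26 + (274877906944) * Polynomial.X ^ 28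

lemma LL : U 2 (U 2 (r ^ 15) * r ^ 15) = 1 + 32 * ((r ^ 2 - 1) * Polynomial.aeval r h) := by
  have e : U 2 (r ^ 15) * r ^ 15 = ((-15 : ℤ) : ℤ⟦X⟧) * r ^ 16 + ((560 : ℤ) : ℤ⟦X⟧) * r ^ 18 + ((-6048 : ℤ) : ℤ⟦X⟧) * r ^ 20 + ((28800 : ℤ) : ℤ⟦X⟧) * r ^ 22 + ((-70400 : ℤ) : ℤ⟦X⟧) * r ^ 24 + ((92160 : ℤ) : ℤ⟦X⟧) * r ^ 26 + ((-61440 : ℤ) : ℤ⟦X⟧) * r ^ 28 + ((16384 : ℤ) : ℤ⟦X⟧) * r ^ 30 := by
    rw [u15]
    push_cast
    ring
  rw [e]
  simp only [map_add, U_int, u16, u18, u20, u22, u24, u26, u28, u30, h, map_mul, map_pow, map_neg,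
    map_ofNat, Polynomial.aeval_X]
  push_cast
  ring

lemma step_pow (k : ℕ) : ∃ p : Polynomial ℤ,
    U 2 ((r ^ 2 - 1) * r ^ k) = 2 * ((r ^ 2 - 1) * Polynomial.aeval r p) := by
  induction k using Nat.twoStepInduction with
  | zero =>
    refine ⟨1, ?_⟩
    rw [show (r ^ 2 - 1) * r ^ 0 = r ^ 2 - r ^ 0 by ring, map_sub, u2, u0, map_one]
    ring
  | one =>
    refine ⟨2 * Polynomial.X, ?_⟩
    rw [show (r ^ 2 - 1) * r ^ 1 = r ^ 3 - r ^ 1 by ring, map_sub, u3, u1, map_mul, map_ofNat,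
      Polynomial.aeval_X]
    ring
  | more k h0 h1 =>
    obtain ⟨p, hp⟩ := h0
    obtain ⟨q, hq⟩ := h1
    refine ⟨2 * Polynomial.X * q - p, ?_⟩
    rw [pow_add, ← mul_assoc, rec_r, mul_assoc _ _ r, ← pow_succ, hp, hq]
    simp only [map_sub, map_mul, map_ofNat, Polynomial.aeval_X]
    ring

lemma step (p : Polynomial ℤ) : ∃ q : Polynomial ℤ,
    U 2 ((r ^ 2 - 1) * Polynomial.aeval r p) = 2 * ((r ^ 2 - 1) * Polynomial.aeval r q) := by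
  induction p using Polynomial.induction_on' with
  | add p q hp hq =>
    obtain ⟨a, ha⟩ := hp
    obtain ⟨b, hb⟩ := hq
    refine ⟨a + b, ?_⟩
    rw [map_add, mul_add, map_add, ha, hb, map_add]
    ring
  | monomial k c =>
    obtain ⟨a, ha⟩ := step_pow k
    refine ⟨c * a, ?_⟩
    rw [Polynomial.aeval_monomial, mul_left_comm, eq_intCast, U_int, ha, map_mul, map_intCast]
    ring

noncomputable def P (m N : ℕ) : ℤ⟦X⟧ := geo ℤ 1 ^ m * ∏ i ∈ range N, geo ℤ (2 ^ i) ^ m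

lemma P_succ (m N : ℕ) : P m (N + 1) = r ^ m * expand 2 two_ne_zero (P m N) := by
  rw [P, P, prod_range_succ', map_mul, map_prod]
  simp only [map_pow, expand_geo, ← pow_succ', pow_zero, mul_one]
  rw [← mul_assoc (r ^ m), ← mul_pow, r, mul_right_comm (1 + X), ← g12, mul_pow]
  ring

lemma dvd_A (m t : ℕ) (p : Polynomial ℤ) (N n : ℕ) (h : t ≤ N) :
    2 ^ (t + 2) ∣ coeff (2 ^ t * n) ((r ^ 2 - 1) * Polynomial.aeval r p * P m N) := by
  induction t generalizing p N with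
  | zero =>
    have e : r ^ 2 - 1 = ((4 : ℤ) : ℤ⟦X⟧) * (X * geo ℤ 1 ^ 2) := by
      rw [r]
      push_cast
      linear_combination (1 + geo ℤ 1 * (1 - X)) * g1
    rw [e, mul_assoc, mul_assoc, ← zsmul_eq_mul, map_zsmul, smul_eq_mul]
    exact dvd_mul_right _ _
  | succ t ih =>
    obtain ⟨N, rfl⟩ : ∃ M, N = M + 1 := ⟨N - 1, by omega⟩
    obtain ⟨q, hq⟩ := step (p * Polynomial.X ^ m)
    rw [map_mul (Polynomial.aeval r), map_pow, Polynomial.aeval_X, ← mul_assoc] at hq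
    rw [pow_succ' 2 t, mul_assoc 2, ← coeff_U, P_succ, ← mul_assoc, U_mul_expand, hq, mul_assoc,
      show (2 : ℤ⟦X⟧) = ((2 : ℤ) : ℤ⟦X⟧) by push_cast; rfl, ← zsmul_eq_mul, map_zsmul, smul_eq_mul,
      add_right_comm, pow_succ']
    exact mul_dvd_mul_left _ (ih q N (by omega))

theorem main (t n : ℕ) : 2 ^ (t + 7) ∣ coeff (4 * (2 ^ t * n)) (P 15 (4 * (2 ^ t * n) + 1)) -
    coeff (2 ^ t * n) (P 15 (2 ^ t * n + 1)) := by
  have hA := fun N => dvd_A 15 t h N n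
  generalize 2 ^ t * n = a at *
  have st : ∀ b M, b + 1 ≤ M → coeff b (P 15 (b + 1)) = coeff b (P 15 M) := fun b M hM =>
    (coeff_prod_stable 2 15 b (by norm_num) _ _ _
      ((Nat.lt_succ_self b).trans (Nat.lt_pow_self (by norm_num))) hM).symm
  rw [st _ (4 * a + t + 1 + 1 + 1) (by omega), st a (4 * a + t + 1) (by omega),
    show 4 * a = 2 * (2 * a) by ring, ← coeff_U, ← coeff_U, P_succ, U_mul_expand, P_succ,
    ← mul_assoc, U_mul_expand, LL, add_mul, one_mul, map_add, add_sub_cancel_left, mul_assoc,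
    show (32 : ℤ⟦X⟧) = ((32 : ℤ) : ℤ⟦X⟧) by push_cast; rfl, ← zsmul_eq_mul, map_zsmul, smul_eq_mul,
    show (2 : ℤ) ^ (t + 7) = 32 * 2 ^ (t + 2) by ring]
  exact mul_dvd_mul_left _ (hA _ (by omega))

end Pool.Agent.H.MP_918176_nt
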